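import Mathlib

namespace Pool.Agent.Results.MP_e8cc41_co.Yes

open Module

/-- The graph on `K` in which distinct `x, y` are adjacent iff `x^2 + b x y + y^2` lies in `V`. -/
def formGraph {F K : Type} [Field F] [Field K] [Algebra F K] (b : K) (V : Submodule F K) :
    SimpleGraph K where
  Adj x y := x ≠ y ∧ x ^ 2 + b * x * y + y ^ 2 ∈ V
  symm := ⟨fun x y h => ⟨h.1.symm, by
    have e : y ^ 2 + b * y * x + x ^ 2 = x ^ 2 + b * x * y + y ^ 2 := by ring
    rw [e]; exact h.2⟩⟩
  loopless := ⟨fun x h => h.1 rfl⟩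

/-- `V` is admissible: nonzero, of size below the square root of the size of `K`, and no
multiple `a V` of it is a subfield of `K`. -/
def Admissible {F K : Type} [Field F] [Field K] [Algebra F K] (V : Submodule F K) : Prop :=
  V ≠ ⊥ ∧ Nat.card V ^ 2 < Nat.card K ∧
    ∀ a : K, ¬ ∃ S : Subfield K, (S : Set K) = (fun z => a * z) '' (V : Set K)

section
variable {F K : Type} [Field F] [Field K] [Algebra F K] [Finite K]

theorem full (V W : Submodule F K) (c : K) (hc : c ≠ 0) (h : ∀ w ∈ W, c * w ∈ V)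
    (hd : finrank F V ≤ finrank F W) : ∀ z ∈ V, ∃ w ∈ W, c * w = z := by
  have hinj : Function.Injective (LinearMap.mulLeft F c) := fun x y hxy =>
    mul_left_cancel₀ hc (by simpa using hxy)
  have hle : W.map (LinearMap.mulLeft F c) ≤ V := by
    rintro _ ⟨w, hw, rfl⟩; exact h w hw
  have hr : finrank F (W.map (LinearMap.mulLeft F c)) = finrank F W :=
    (LinearEquiv.finrank_eq (Submodule.equivMapOfInjective _ hinj W)).symm
  have he : W.map (LinearMap.mulLeft F c) = V :=
    Submodule.eq_of_le_of_finrank_le hle (by omega)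
  intro z hz
  rw [← he] at hz
  obtain ⟨w, hw, rfl⟩ := hz
  exact ⟨w, hw, rfl⟩

theorem subfield_of (V W1 W2 : Submodule F K) (b : K) (hb : b ≠ 0)
    (h : ∀ w1 ∈ W1, ∀ w2 ∈ W2, b * w1 * w2 ∈ V) (hV : V ≠ ⊥)
    (h1 : finrank F V ≤ finrank F W1) (h2 : finrank F V ≤ finrank F W2) :
    ∃ a : K, ∃ S : Subfield K, (S : Set K) = (fun z => a * z) '' (V : Set K) := by
  have hpos : 0 < finrank F V := by
    rcases Nat.eq_zero_or_pos (finrank F V) with h0 | h0
    · exact absurd (Submodule.finrank_eq_zero.1 h0) hV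
    · exact h0
  have hW1 : W1 ≠ ⊥ := by
    rintro rfl; simp at h1; exact hV h1
  have hW2 : W2 ≠ ⊥ := by
    rintro rfl; simp at h2; exact hV h2
  obtain ⟨u, hu, hu0⟩ := (Submodule.ne_bot_iff W1).1 hW1
  obtain ⟨v, hv, hv0⟩ := (Submodule.ne_bot_iff W2).1 hW2
  have f1 := full V W1 (b * v) (mul_ne_zero hb hv0) (fun w hw => by
    have := h w hw v hv
    have e : b * v * w = b * w * v := by ring
    rw [e]; exact this) h1
  have f2 := full V W2 (b * u) (mul_ne_zero hb hu0) (fun w hw => h u hu w hw) h2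
  have hmul : ∀ z z' : K, u * z ∈ W1 → u * z' ∈ W1 → u * (z * z') ∈ W1 := by
    intro z z' hz hz'
    obtain ⟨y, hy, hye⟩ := f2 _ (h _ hz v hv)
    have hyv : y = v * z := by
      apply mul_left_cancel₀ (mul_ne_zero hb hu0)
      rw [hye]; ring
    obtain ⟨w, hw, hwe⟩ := f1 _ (h _ hz' y hy)
    have : w = u * (z * z') := by
      apply mul_left_cancel₀ (mul_ne_zero hb hv0)
      rw [hwe, hyv]; ring
    rw [← this]; exact hw
  have hpow : ∀ (z : K) (m : ℕ), u * z ∈ W1 → u * z ^ m ∈ W1 := by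
    intro z m hz
    induction m with
    | zero => simpa using hu
    | succ m ih => rw [pow_succ]; exact hmul _ _ ih hz
  refine ⟨(b * v * u)⁻¹,
    { carrier := {z | u * z ∈ W1}
      mul_mem' := fun {z z'} hz hz' => hmul z z' hz hz'
      one_mem' := by simpa using hu
      add_mem' := fun {z z'} hz hz' => by
        have := W1.add_mem hz hz'
        show u * (z + z') ∈ W1
        rw [mul_add]; exact this
      zero_mem' := by simp
      neg_mem' := fun {z} hz => by
        have := W1.neg_mem hz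
        show u * (-z) ∈ W1
        rw [mul_neg]; exact this
      inv_mem' := fun z hz => by
        show u * z⁻¹ ∈ W1
        by_cases hz0 : z = 0
        · simp [hz0]
        · have := Fintype.ofFinite K
          have hc := FiniteField.pow_card_sub_one_eq_one z hz0
          have h2 : 1 < Fintype.card K := Fintype.one_lt_card
          have e : z⁻¹ = z ^ (Fintype.card K - 2) := by
            apply inv_eq_of_mul_eq_one_right
            rw [← pow_succ', ← hc]; congr 1; omega
          rw [e]; exact hpow z _ hz }, ?_⟩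
  have hne : b * v * u ≠ 0 := mul_ne_zero (mul_ne_zero hb hv0) hu0
  ext z
  constructor
  · intro hz
    have hz' : u * z ∈ W1 := hz
    refine ⟨b * (u * z) * v, h _ hz' v hv, ?_⟩
    field_simp
  · rintro ⟨y, hy, rfl⟩
    obtain ⟨w, hw, rfl⟩ := f1 y hy
    show u * ((b * v * u)⁻¹ * (b * v * w)) ∈ W1
    have : u * ((b * v * u)⁻¹ * (b * v * w)) = w := by field_simp
    rw [this]; exact hw

theorem rank_le [Finite F] (d : ℕ) (A : Finset K) (a : K) (hA : Nat.card F ^ (d - 1) < A.card) :
    d ≤ finrank F (Submodule.span F ((fun x => x - a) '' (A : Set K))) := by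
  classical
  obtain ⟨W, hW⟩ : ∃ W, W = Submodule.span F ((fun x => x - a) '' (A : Set K)) := ⟨_, rfl⟩
  rw [← hW]
  have hc : Nat.card W = Nat.card F ^ finrank F W := Module.natCard_eq_pow_finrank
  have hle : A.card ≤ Nat.card W := by
    rw [← Fintype.card_coe A, ← Nat.card_eq_fintype_card]
    refine Nat.card_le_card_of_injective
      (fun x => ⟨x.1 - a, by rw [hW]; exact Submodule.subset_span ⟨x.1, x.2, rfl⟩⟩) ?_
    intro x y hxy
    simp only [Subtype.mk.injEq, sub_left_inj] at hxy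
    exact Subtype.ext hxy
  have h1 : 1 < Nat.card F := Finite.one_lt_card
  have : Nat.card F ^ (d - 1) < Nat.card F ^ finrank F W := by omega
  have := (Nat.pow_lt_pow_iff_right h1).1 this
  omega

theorem bound [Finite F] (V : Submodule F K) (b : K) (hb : b ≠ 0) (hV : V ≠ ⊥)
    (hS : ∀ a : K, ¬ ∃ S : Subfield K, (S : Set K) = (fun z => a * z) '' (V : Set K)) :
    (formGraph b V).cliqueNum ≤ 2 * Nat.card F ^ (finrank F V - 1) + 1 := by
  classical
  obtain ⟨A, hA⟩ := (formGraph b V).exists_isNClique_cliqueNum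
  rw [← hA.card_eq]
  by_contra hlt
  obtain ⟨m, hm⟩ : ∃ m, m = Nat.card F ^ (finrank F V - 1) := ⟨_, rfl⟩
  rw [← hm] at hlt
  obtain ⟨A1, hA1, hc1⟩ := Finset.exists_subset_card_eq (s := A) (n := m + 1) (by omega)
  have hc2 : m < (A \ A1).card := by rw [Finset.card_sdiff_of_subset hA1]; omega
  obtain ⟨a1, ha1⟩ : A1.Nonempty := Finset.card_pos.1 (by omega)
  obtain ⟨a2, ha2⟩ : (A \ A1).Nonempty := Finset.card_pos.1 (by omega)
  have r1 := rank_le (F := F) (finrank F V) A1 a1 (by omega)
  have r2 := rank_le (F := F) (finrank F V) (A \ A1) a2 (by omega)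
  have hq : ∀ x ∈ A1, ∀ y ∈ A \ A1, x ^ 2 + b * x * y + y ^ 2 ∈ V := by
    intro x hx y hy
    have hy' := Finset.mem_sdiff.1 hy
    have hne : x ≠ y := by rintro rfl; exact hy'.2 hx
    exact (hA.isClique (hA1 hx) hy'.1 hne).2
  have hbil : ∀ x ∈ A1, ∀ y ∈ A \ A1, b * (x - a1) * (y - a2) ∈ V := by
    intro x hx y hy
    have e : b * (x - a1) * (y - a2) = (x ^ 2 + b * x * y + y ^ 2) - (x ^ 2 + b * x * a2 + a2 ^ 2)
        - (a1 ^ 2 + b * a1 * y + y ^ 2) + (a1 ^ 2 + b * a1 * a2 + a2 ^ 2) := by ring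
    rw [e]
    exact V.add_mem (V.sub_mem (V.sub_mem (hq x hx y hy) (hq x hx a2 ha2)) (hq a1 ha1 y hy))
      (hq a1 ha1 a2 ha2)
  obtain ⟨a, S, hS'⟩ := subfield_of V _ _ b hb (by
    intro w1 hw1 w2 hw2
    induction hw1 using Submodule.span_induction with
    | mem x hx =>
      obtain ⟨x, hx, rfl⟩ := hx
      induction hw2 using Submodule.span_induction with
      | mem y hy => obtain ⟨y, hy, rfl⟩ := hy; exact hbil x hx y hy
      | zero => simp
      | add y y' _ _ h1 h2 => rw [mul_add]; exact V.add_mem h1 h2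
      | smul c y _ h1 => rw [mul_smul_comm]; exact V.smul_mem c h1
    | zero => simp
    | add x x' _ _ h1 h2 => rw [mul_add, add_mul]; exact V.add_mem h1 h2
    | smul c x _ h1 => rw [mul_smul_comm, smul_mul_assoc]; exact V.smul_mem c h1) hV r1 r2
  exact hS a ⟨S, hS'⟩

theorem bound' [Finite F] (V : Submodule F K) (b : K) (hb : b ≠ 0) (hV : V ≠ ⊥)
    (hS : ∀ a : K, ¬ ∃ S : Subfield K, (S : Set K) = (fun z => a * z) '' (V : Set K)) :
    Nat.card F * (formGraph b V).cliqueNum ≤ 3 * Nat.card V := by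
  have h := bound V b hb hV hS
  have hpos : 0 < finrank F V := by
    rcases Nat.eq_zero_or_pos (finrank F V) with h0 | h0
    · exact absurd (Submodule.finrank_eq_zero.1 h0) hV
    · exact h0
  have hc : Nat.card V = Nat.card F ^ finrank F V := Module.natCard_eq_pow_finrank
  have h1 : 1 < Nat.card F := Finite.one_lt_card
  have e : Nat.card F ^ finrank F V = Nat.card F * Nat.card F ^ (finrank F V - 1) := by
    rw [← pow_succ']; congr 1; omega
  have hp : 1 ≤ Nat.card F ^ (finrank F V - 1) := Nat.one_le_pow _ _ (by omega)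
  rw [hc, e]
  calc Nat.card F * (formGraph b V).cliqueNum
      ≤ Nat.card F * (3 * Nat.card F ^ (finrank F V - 1)) := Nat.mul_le_mul_left _ (by omega)
    _ = _ := by ring

end

theorem result :
    (∀ (F K : Type) [Field F] [Finite F] [Field K] [Finite K] [Algebra F K]
      (V : Submodule F K) (b : K), b ≠ 0 → Admissible V →
        Nat.card F * (formGraph b V).cliqueNum ≤ 3 * Nat.card V) ∧
    (∀ n : ℕ, ∀ ε : ℝ, 0 < ε → ∃ q₀ : ℕ,
      ∀ (F K : Type) [Field F] [Finite F] [Field K] [Finite K] [Algebra F K],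
        Odd (Nat.card F) → q₀ ≤ Nat.card F → finrank F K = n →
        ∀ (V : Submodule F K) (b : K), b ≠ 0 → Admissible V →
          ((formGraph b V).cliqueNum : ℝ) / (Nat.card V : ℝ) < ε) := by
  refine ⟨fun F K _ _ _ _ _ V b hb hV => bound' V b hb hV.1 hV.2.2, ?_⟩
  intro n ε hε
  obtain ⟨q, hq⟩ := exists_nat_gt (3 / ε)
  refine ⟨q, fun F K _ _ _ _ _ _ hq' _ V b hb hV => ?_⟩
  have h := bound' V b hb hV.1 hV.2.2
  have hV0 : (0 : ℝ) < Nat.card V := by exact_mod_cast Nat.card_pos
  have hF0 : (0 : ℝ) < Nat.card F := by exact_mod_cast Nat.card_pos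
  have h' : (Nat.card F : ℝ) * (formGraph b V).cliqueNum ≤ 3 * Nat.card V := by exact_mod_cast h
  have hq2 : (q : ℝ) ≤ Nat.card F := by exact_mod_cast hq'
  have h3 : 3 < ε * Nat.card F := by
    rw [div_lt_iff₀ hε] at hq
    nlinarith
  rw [div_lt_iff₀ hV0]
  nlinarith

end Pool.Agent.Results.MP_e8cc41_co.Yes
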